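import Pool.Agent.H494Z.MSS.MA

set_option autoImplicit false
set_option linter.unusedSectionVars false

namespace Pool.Agent.H494Z.MSS

variable {σ : Type} [DecidableEq σ] [Fintype σ]

lemma alg_barrier (g0 g1 g2 a0 a1 a2 δ φ : ℝ) (hg0 : 0 < g0) (hg1 : 0 ≤ g1) (hg2 : 0 ≤ g2)
    (hδ : 0 < δ) (hφ : φ * δ = δ - 1)
    (hB : ∀ u y : ℝ, 0 < y → (a1 * g0 - a0 * g1) + 2 * u * (a2 * g0 - a0 * g2) +
      (u ^ 2 + y ^ 2) * (a2 * g1 - a1 * g2) ≤ 0)
    (h0 : a0 ≤ φ * g0) (h1 : g1 + 2 * δ * g2 ≤ φ * (g0 + δ * g1 + δ ^ 2 * g2)) :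
    (a0 + δ * a1 + δ ^ 2 * a2) - (a1 + 2 * δ * a2) ≤
      φ * ((g0 + δ * g1 + δ ^ 2 * g2) - (g1 + 2 * δ * g2)) := by
  obtain ⟨p, hp⟩ : ∃ p, p = -(a1 * g0 - a0 * g1) := ⟨_, rfl⟩
  obtain ⟨q, hq⟩ : ∃ q, q = -(a2 * g0 - a0 * g2) := ⟨_, rfl⟩
  obtain ⟨τ, hτ⟩ : ∃ τ, τ = -(a2 * g1 - a1 * g2) := ⟨_, rfl⟩
  have hB' : ∀ u y : ℝ, 0 < y → 0 ≤ p + 2 * u * q + (u ^ 2 + y ^ 2) * τ := by
    intro u y hy
    have := hB u y hy
    rw [hp, hq, hτ]; linarith
  have hN : ∀ u : ℝ, 0 ≤ τ * (u * u) + (2 * q) * u + p := by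
    intro u
    by_contra hc
    push Not at hc
    set m := -(τ * (u * u) + (2 * q) * u + p) with hm
    have hm0 : 0 < m := by linarith
    have hy : 0 < Real.sqrt (m / (|τ| + 1)) := Real.sqrt_pos.2 (by positivity)
    have h2 := hB' u _ hy
    rw [Real.sq_sqrt (by positivity)] at h2
    have h3 : m / (|τ| + 1) * τ ≤ m / (|τ| + 1) * |τ| :=
      mul_le_mul_of_nonneg_left (le_abs_self τ) (by positivity)
    have h4 : m / (|τ| + 1) * |τ| < m := by
      rw [div_mul_eq_mul_div, div_lt_iff₀ (by positivity)]; nlinarith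
    nlinarith
  have hp0 : 0 ≤ p := by simpa using hN 0
  have hd : q ^ 2 ≤ p * τ := by
    have := discrim_le_zero hN
    unfold discrim at this
    nlinarith
  have hτ0 : 0 ≤ τ := by
    by_contra hc
    push Not at hc
    have hp1 : p = 0 := by nlinarith [sq_nonneg q]
    have hq1 : q = 0 := by
      rw [hp1] at hd
      nlinarith [sq_nonneg q]
    have := hN 1
    rw [hp1, hq1] at this
    linarith
  have hsyz : p * g2 + τ * g0 = q * g1 := by rw [hp, hq, hτ]; ring
  have hq0 : 0 ≤ q := by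
    rcases hg1.lt_or_eq with h | h
    · by_contra hc
      push Not at hc
      nlinarith [mul_nonneg hp0 hg2, mul_nonneg hτ0 hg0.le]
    · have h2 : τ * g0 = 0 := by
        rw [← h] at hsyz
        nlinarith [mul_nonneg hp0 hg2, mul_nonneg hτ0 hg0.le]
      have h3 : τ = 0 := by
        rcases mul_eq_zero.1 h2 with h | h
        · exact h
        · exact absurd h hg0.ne'
      rw [h3] at hd
      nlinarith [sq_nonneg q]
  have hK1 : q * g0 ≤ p * g1 := by
    rcases hq0.lt_or_eq with h | h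
    · refine le_of_mul_le_mul_left ?_ h
      have e1 : q ^ 2 * g0 ≤ p * τ * g0 := mul_le_mul_of_nonneg_right hd hg0.le
      have e2 : p * τ * g0 = p * (q * g1) - p * (p * g2) := by rw [← hsyz]; ring
      nlinarith [mul_nonneg hp0 (mul_nonneg hp0 hg2)]
    · rw [← h]; simpa using mul_nonneg hp0 hg1
  obtain ⟨G, hG⟩ : ∃ G, G = g0 + δ * g1 + δ ^ 2 * g2 := ⟨_, rfl⟩
  obtain ⟨G', hG'⟩ : ∃ G', G' = g1 + 2 * δ * g2 := ⟨_, rfl⟩
  obtain ⟨A, hA⟩ : ∃ A, A = a0 + δ * a1 + δ ^ 2 * a2 := ⟨_, rfl⟩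
  obtain ⟨A', hA'⟩ : ∃ A', A' = a1 + 2 * δ * a2 := ⟨_, rfl⟩
  have hGpos : 0 < G := by rw [hG]; positivity
  have hK : (p + 2 * δ * q + δ ^ 2 * τ) * g0 ≤ (p + q * δ) * G := by
    have e : (p + q * δ) * G - (p + 2 * δ * q + δ ^ 2 * τ) * g0 =
        δ * ((p * g1 - q * g0) + 2 * δ * (p * g2) + δ ^ 2 * (q * g2)) := by
      rw [hG]; linear_combination (-δ ^ 2) * hsyz
    have : 0 ≤ δ * ((p * g1 - q * g0) + 2 * δ * (p * g2) + δ ^ 2 * (q * g2)) := by
      apply mul_nonneg hδ.le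
      have := mul_nonneg hp0 hg2
      have := mul_nonneg hq0 hg2
      have : 0 ≤ p * g1 - q * g0 := by linarith
      positivity
    linarith
  have i1 : A * g0 = a0 * G - δ * (p + q * δ) := by rw [hA, hG, hp, hq]; ring
  have i2 : A' * G = A * G' - (p + 2 * δ * q + δ ^ 2 * τ) := by
    rw [hA, hA', hG, hG', hp, hq, hτ]; ring
  rw [← hG, ← hG'] at h1
  rw [← hG, ← hG', ← hA, ← hA']
  have h5 : G ≤ δ * (G - G') := by nlinarith
  have h6 : 0 < G - G' := by
    by_contra hc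
    push Not at hc
    nlinarith
  have h7 : 0 ≤ p + q * δ := by positivity
  refine le_of_mul_le_mul_right ?_ (mul_pos hGpos hg0)
  have e3 : (A - A') * (G * g0) = (A * g0) * (G - G') + (p + 2 * δ * q + δ ^ 2 * τ) * g0 := by
    linear_combination (-g0) * i2
  rw [e3, i1]
  have e4 : (p + q * δ) * G ≤ (p + q * δ) * (δ * (G - G')) := mul_le_mul_of_nonneg_left h5 h7
  have e5 : a0 * G * (G - G') ≤ φ * g0 * G * (G - G') :=
    mul_le_mul_of_nonneg_right (mul_le_mul_of_nonneg_right h0 hGpos.le) h6.le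
  nlinarith

/-- the point `y` lies above the roots of `f` -/
def Ab (f : (σ → ℝ) → ℝ) (y : σ → ℝ) : Prop := ∀ x, y ≤ x → 0 < f x

lemma ee_nonneg (k : σ) : (0 : σ → ℝ) ≤ ee k := by
  intro j; by_cases h : j = k <;> simp [ee, h]

lemma le_add_smul (x : σ → ℝ) (k : σ) {s : ℝ} (hs : 0 ≤ s) : x ≤ x + s • ee k :=
  le_add_of_nonneg_right (smul_nonneg hs (ee_nonneg k))

lemma pd_nonneg {f : (σ → ℝ) → ℝ} (hf : MA f) {y : σ → ℝ} (h : ∀ x, y ≤ x → 0 ≤ f x) (k : σ) :
    ∀ x, y ≤ x → 0 ≤ pd k f x := by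
  intro x hx
  by_contra hc
  push Not at hc
  have h0 := h x hx
  have hs : 0 ≤ (f x + 1) / (-pd k f x) := div_nonneg (by linarith) (by linarith)
  have h1 := h _ (hx.trans (le_add_smul x k hs))
  rw [hf] at h1
  have : (f x + 1) / (-pd k f x) * pd k f x = -(f x + 1) := by
    have : pd k f x ≠ 0 := hc.ne
    field_simp
  linarith

lemma mono_ratio {a f : (σ → ℝ) → ℝ} (ha : MA a) (hf : MA f) {y : σ → ℝ} (hy : Ab f y)
    (hb : ∀ x k, pd k a x * f x ≤ a x * pd k f x) {φ : ℝ} (h0 : a y ≤ φ * f y) :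
    ∀ x, y ≤ x → a x ≤ φ * f x := by
  intro x hx
  have key : ∀ S : Finset σ, y ≤ y + ∑ k ∈ S, (x k - y k) • ee k ∧
      a (y + ∑ k ∈ S, (x k - y k) • ee k) ≤ φ * f (y + ∑ k ∈ S, (x k - y k) • ee k) := by
    intro S
    induction S using Finset.induction_on with
    | empty => simpa using h0
    | insert j S hj ih =>
      rw [Finset.sum_insert hj, add_comm ((x j - y j) • ee j), ← add_assoc]
      obtain ⟨i1, i2⟩ := ih
      generalize y + ∑ k ∈ S, (x k - y k) • ee k = w at i1 i2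
      have hs : 0 ≤ x j - y j := sub_nonneg.2 (hx j)
      have i3 := i1.trans (le_add_smul w j hs)
      refine ⟨i3, ?_⟩
      have p1 := hy w i1
      have p2 := hy _ i3
      refine le_of_mul_le_mul_right ?_ p1
      have p3 := hb w j
      rw [hf] at p2
      rw [ha, hf]
      have p4 := mul_le_mul_of_nonneg_left p3 hs
      have p5 := mul_le_mul_of_nonneg_right i2 p2.le
      nlinarith
  have e : y + ∑ k ∈ Finset.univ, (x k - y k) • ee k = x := by
    funext j
    simp [ee, Finset.sum_apply, Pi.single_apply]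
  have := (key Finset.univ).2
  rwa [e] at this

/-- tame and stable -/
structure Nice (F : (σ → ℂ) → ℂ) : Prop where
  tame : Tame F
  stab : Stab F

lemma Nice.st {F : (σ → ℂ) → ℂ} (hF : Nice F) (a b : σ) : Nice (st a b F) :=
  ⟨hF.tame.st a b, hF.stab.st hF.tame.ma a b⟩

lemma Nice.bezDD {F : (σ → ℂ) → ℂ} (hF : Nice F) (a b : σ) (x : σ → ℝ) (k : σ) :
    pd k (DD a b (re' F)) x * re' F x ≤ DD a b (re' F) x * pd k (re' F) x := by
  have := (pick_DD hF.tame hF.stab a b).bez1 (hF.tame.DD a b) hF.tame x k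
  rwa [re_DD] at this

lemma Nice.bezpd {F : (σ → ℂ) → ℂ} (hF : Nice F) (a : σ) (x : σ → ℝ) (k : σ) :
    pd k (pd a (re' F)) x * re' F x ≤ pd a (re' F) x * pd k (re' F) x := by
  have := (pick_pd hF.tame hF.stab a).bez1 (hF.tame.pd a) hF.tame x k
  rwa [re_pd] at this

lemma barrier_step {F : (σ → ℂ) → ℂ} (hF : Nice F) {y : σ → ℝ} (hy : Ab (re' F) y)
    {δ φ : ℝ} (hδ : 0 < δ) (hφ : φ * δ = δ - 1) (a b : σ)
    (h1 : DD a b (re' F) y ≤ φ * re' F y) :
    Ab (re' (st a b F)) y ∧ ∀ c d : σ, DD c d (re' F) y ≤ φ * re' F y →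
      DD c d (re' (st a b F)) (y + δ • (ee a + ee b)) ≤
        φ * re' (st a b F) (y + δ • (ee a + ee b)) := by
  have hf := hF.tame.ma_re
  have hm := mono_ratio (hf.DD a b) hf hy (hF.bezDD a b) h1
  have hφ1 : φ < 1 := by
    by_contra hc
    push Not at hc
    nlinarith
  constructor
  · intro x hx
    rw [re_st]
    have := hm x hx
    have h2 := hy x hx
    simp only [st]
    nlinarith
  · intro c d h2
    have hle : y ≤ y + δ • (ee a + ee b) :=
      le_add_of_nonneg_right (smul_nonneg hδ.le (add_nonneg (ee_nonneg a) (ee_nonneg b)))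
    have h3 := hm _ hle
    rw [re_st, DD_st]
    simp only [st]
    rw [hf.two', hf.two] at h3
    rw [hf.two', hf.two, (hf.DD c d).two', (hf.DD c d).two]
    have n1 := pd_nonneg hf (fun x hx => (hy x hx).le)
    refine alg_barrier _ _ _ _ _ _ δ φ (hy y le_rfl) (add_nonneg (n1 a y le_rfl) (n1 b y le_rfl))
      (pd_nonneg (hf.pd b) (n1 b) a y le_rfl) hδ hφ ?_ h2 h3
    intro u v hv
    have := (pick_DD hF.tame hF.stab c d).bez2 (hF.tame.DD c d) hF.tame y a b u v hv
    rwa [re_DD] at this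

section lists

variable {ι : Type} (α β : ι → σ) (F : (σ → ℂ) → ℂ)

/-- iterated operator -/
def GG : List ι → (σ → ℂ) → ℂ
  | [] => F
  | j :: l => st (α j) (β j) (GG l)

/-- above the roots of all the intermediate functions -/
def AbAll : List ι → (σ → ℝ) → Prop
  | [], y => Ab (re' F) y
  | j :: l, y => Ab (re' (GG α β F (j :: l))) y ∧ AbAll l y

variable {F}

lemma GG_nice (hF : Nice F) (l : List ι) : Nice (GG α β F l) := by
  induction l with
  | nil => exact hF
  | cons j l ih => exact ih.st _ _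

lemma AbAll.head {l : List ι} {y : σ → ℝ} (h : AbAll α β F l y) : Ab (re' (GG α β F l)) y := by
  cases l with
  | nil => exact h
  | cons j l => exact h.1

lemma barrier (hF : Nice F) {y : σ → ℝ} (hy : Ab (re' F) y) {δ φ : ℝ} (hδ : 0 < δ)
    (hφ : φ * δ = δ - 1) (h1 : ∀ i, DD (α i) (β i) (re' F) y ≤ φ * re' F y) (l : List ι) :
    (∀ x, y + (l.map (fun j => δ • (ee (α j) + ee (β j)))).sum ≤ x → AbAll α β F l x) ∧
    ∀ i, DD (α i) (β i) (re' (GG α β F l)) (y + (l.map (fun j => δ • (ee (α j) + ee (β j)))).sum) ≤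
      φ * re' (GG α β F l) (y + (l.map (fun j => δ • (ee (α j) + ee (β j)))).sum) := by
  induction l with
  | nil =>
    refine ⟨fun x hx => ?_, by simpa [GG] using h1⟩
    intro w hw
    exact hy w (le_trans (by simpa using hx) hw)
  | cons j l ih =>
    obtain ⟨i1, i2⟩ := ih
    rw [List.map_cons, List.sum_cons, add_comm (δ • (ee (α j) + ee (β j))), ← add_assoc]
    generalize y + (l.map (fun j => δ • (ee (α j) + ee (β j)))).sum = w at i1 i2
    obtain ⟨s1, s2⟩ := barrier_step (GG_nice α β hF l) (AbAll.head α β (i1 w le_rfl)) hδ hφ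
      (α j) (β j) (i2 j)
    have hle : w ≤ w + δ • (ee (α j) + ee (β j)) :=
      le_add_of_nonneg_right (smul_nonneg hδ.le (add_nonneg (ee_nonneg _) (ee_nonneg _)))
    refine ⟨fun x hx => ⟨fun v hv => s1 v (hle.trans (hx.trans hv)), i1 x (hle.trans hx)⟩,
      fun i => s2 _ _ (i2 i)⟩

lemma ab_down {H : (σ → ℂ) → ℂ} (hH : Nice H) {y : σ → ℝ} (hy : Ab (re' H) y) (k : σ)
    (h : 2 * pd k (re' H) y < re' H y) : Ab (re' H) (y - (2 : ℝ) • ee k) := by
  intro x hx
  have hf := hH.tame.ma_re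
  have hx' : y ≤ x + (2 : ℝ) • ee k := by rwa [sub_le_iff_le_add] at hx
  have p0 := hy y le_rfl
  have hm := mono_ratio (hf.pd k) hf hy (hH.bezpd k) (φ := pd k (re' H) y / re' H y)
    (by rw [div_mul_cancel₀ _ p0.ne']) _ hx'
  have p1 := hy _ hx'
  have h2 : pd k (re' H) y / re' H y < 1 / 2 := by rw [div_lt_iff₀ p0]; linarith
  have e : x = (x + (2 : ℝ) • ee k) + (-2 : ℝ) • ee k := by
    rw [add_assoc, ← add_smul]; simp
  rw [e, hf]
  nlinarith

lemma all_down (hF : Nice F) (l : List ι) {y : σ → ℝ} (hy : AbAll α β F l y) (k : σ)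
    (h : 2 * pd k (re' (GG α β F l)) y < re' (GG α β F l) y) :
    AbAll α β F l (y - (2 : ℝ) • ee k) := by
  induction l with
  | nil => exact ab_down hF hy k h
  | cons j l ih =>
    refine ⟨ab_down (GG_nice α β hF _) hy.1 k h, ih hy.2 ?_⟩
    have p0 := AbAll.head α β hy.2 y le_rfl
    have p1 := hy.1 y le_rfl
    have hb := (GG_nice α β hF l).bezDD (α j) (β j) y k
    simp only [GG] at h p1
    rw [re_st] at h p1
    rw [pd_st] at h
    simp only [st] at h p1
    refine lt_of_mul_lt_mul_right ?_ p1.le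
    nlinarith

lemma select [DecidableEq ι] (hF : Nice F) (l : List ι) (hl : l.Nodup) {y : σ → ℝ}
    (hy : AbAll α β F l y) : ∃ c : ι → σ, (∀ j, c j = α j ∨ c j = β j) ∧
      Ab (re' F) (y - (l.map (fun j => (2 : ℝ) • ee (c j))).sum) := by
  induction l generalizing y with
  | nil => exact ⟨α, fun j => Or.inl rfl, by simpa [AbAll] using hy⟩
  | cons j l ih =>
    have p1 := hy.1 y le_rfl
    simp only [GG] at p1
    rw [re_st] at p1
    simp only [st, DD] at p1
    obtain ⟨k, hk1, hk2⟩ : ∃ k, (k = α j ∨ k = β j) ∧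
        2 * pd k (re' (GG α β F l)) y < re' (GG α β F l) y := by
      by_contra hc
      push Not at hc
      have h1 := hc _ (Or.inl rfl)
      have h2 := hc _ (Or.inr rfl)
      linarith
    rw [List.nodup_cons] at hl
    obtain ⟨c, hc1, hc2⟩ := ih hl.2 (all_down α β hF l hy.2 k hk2)
    refine ⟨Function.update c j k, fun i => ?_, ?_⟩
    · by_cases h : i = j
      · subst h; simpa using hk1
      · simpa [h] using hc1 i
    · rw [List.map_cons, List.sum_cons, Function.update_self, ← sub_sub]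
      have : l.map (fun i => (2 : ℝ) • (ee (Function.update c j k i) : σ → ℝ)) =
          l.map (fun i => (2 : ℝ) • ee (c i)) := by
        apply List.map_congr_left
        intro i hi
        rw [Function.update_of_ne (fun h : i = j => hl.1 (h ▸ hi))]
      rw [this]
      exact hc2

/-- The abstract selection theorem. -/
theorem abstract_mss [Fintype ι] (hF : Nice F) {y : σ → ℝ} {δ φ : ℝ} (hδ : 0 < δ)
    (hφ : φ * δ = δ - 1) (hy : Ab (re' F) (y - ∑ j, δ • (ee (α j) + ee (β j))))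
    (h1 : ∀ i, DD (α i) (β i) (re' F) (y - ∑ j, δ • (ee (α j) + ee (β j))) ≤
      φ * re' F (y - ∑ j, δ • (ee (α j) + ee (β j)))) :
    ∃ c : ι → σ, (∀ j, c j = α j ∨ c j = β j) ∧ Ab (re' F) (y - ∑ j, (2 : ℝ) • ee (c j)) := by
  classical
  have h2 := (barrier α β hF hy hδ hφ h1 Finset.univ.toList).1 y (by
    rw [Finset.sum_map_toList]; simp)
  obtain ⟨c, hc1, hc2⟩ := select α β hF _ (Finset.nodup_toList _) h2
  rw [Finset.sum_map_toList] at hc2
  exact ⟨c, hc1, hc2⟩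

end lists

end Pool.Agent.H494Z.MSS
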