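import Mathlib

set_option autoImplicit false

namespace Pool.Agent.H494Z.CoarseGhost

open scoped NNReal Classical

/-- the Hilbert space of square summable complex functions on `X` -/
abbrev L2 (X : Type) : Type := lp (fun _ : X => ℂ) 2

/-- the standard basis vector at `x` -/
noncomputable def delta {X : Type} (x : X) : L2 X := lp.single 2 x (1 : ℂ)

section generic

variable {X H : Type} [NormedAddCommGroup H] [InnerProductSpace ℂ H]

/-- the matrix entry of `T` in row `x` and column `y` with respect to the family `e` -/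
noncomputable def entry (e : X → H) (T : H →L[ℂ] H) (x y : X) : ℂ := inner ℂ (e x) (T (e y))

/-- the norm closure of the operators of finite propagation with respect to the family `e` -/
def Roe [MetricSpace X] (e : X → H) : Set (H →L[ℂ] H) :=
  closure {T | ∃ r : ℝ, ∀ x y : X, r < dist x y → entry e T x y = 0}

/-- the matrix entries of `T` tend to zero at infinity -/
def IsGhost (e : X → H) (T : H →L[ℂ] H) : Prop :=
  ∀ ε : ℝ, 0 < ε → ∃ F : Set X, F.Finite ∧ ∀ x y : X, ¬ (x ∈ F ∧ y ∈ F) → ‖entry e T x y‖ < ε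

/-- every ghost projection in `Roe e` is compact -/
def GhostsCompact [MetricSpace X] [CompleteSpace H] (e : X → H) : Prop :=
  ∀ p ∈ Roe e, IsStarProjection p → IsGhost e p → IsCompactOperator p

end generic

/-- every ghost projection in the uniform Roe algebra of `X` is compact -/
def GhostProjectionsCompact (X : Type) [MetricSpace X] : Prop :=
  GhostsCompact (delta : X → L2 X)

/-- uniformly locally finite metric space -/
def ULF (X : Type) [MetricSpace X] : Prop :=
  ∀ r : ℝ, 0 < r → ∃ N : ℕ, ∀ x : X, (Metric.closedBall x r).encard ≤ (N : ℕ∞)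

/-- `S` is a disjoint union of finite nonempty pieces whose mutual distances tend to infinity -/
def IsSparse {X : Type} [MetricSpace X] (S : Set X) : Prop :=
  ∃ P : ℕ → Set X, (∀ n, (P n).Finite ∧ (P n).Nonempty) ∧
    (∀ n m, n ≠ m → Disjoint (P n) (P m)) ∧ S = ⋃ n, P n ∧
    ∀ R : ℝ, ∃ K : ℕ, ∀ n m, n ≠ m → K ≤ n + m → ∀ x ∈ P n, ∀ y ∈ P m, R ≤ dist x y

/-- all sparse subspaces of `X` yield only compact ghost projections -/
def OnlyCompactGhosts (X : Type) [MetricSpace X] : Prop :=
  ∀ S : Set X, IsSparse S → GhostProjectionsCompact S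

/-- coarse embedding -/
def IsCoarseEmbedding {Y X : Type} [MetricSpace Y] [MetricSpace X] (f : Y → X) : Prop :=
  ∃ ρ₁ ρ₂ : ℝ≥0 → ℝ≥0, Monotone ρ₁ ∧ Monotone ρ₂ ∧ Filter.Tendsto ρ₁ Filter.atTop Filter.atTop ∧
    ∀ y y' : Y, ρ₁ (nndist y y') ≤ nndist (f y) (f y') ∧ nndist (f y) (f y') ≤ ρ₂ (nndist y y')

end Pool.Agent.H494Z.CoarseGhost
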