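import Pool.Agent.H494Z.MSS.Barrier

set_option autoImplicit false
set_option linter.unusedSectionVars false

namespace Pool.Agent.H494Z.MSS

open Matrix
open scoped ComplexOrder

variable {n : Type} [Fintype n] [DecidableEq n]

lemma det_affine (A : Matrix n n ℂ) (u v : n → ℂ) (t : ℂ) :
    det (A + t • vecMulVec u v) = det A + t * (det (A + vecMulVec u v) - det A) := by
  let K : (n ⊕ Unit → ℂ) → ℂ := fun r =>
    det (updateRow (fromBlocks A (replicateCol Unit u) 0 (1 : Matrix Unit Unit ℂ)) (Sum.inr ()) r)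
  have hK : ∀ s : ℂ, K (Sum.elim (0 : n → ℂ) (1 : Unit → ℂ) + s • Sum.elim (-v) (0 : Unit → ℂ)) = det (A + s • vecMulVec u v) := by
    intro s
    have : updateRow (fromBlocks A (replicateCol Unit u) 0 (1 : Matrix Unit Unit ℂ)) (Sum.inr ())
        (Sum.elim (0 : n → ℂ) (1 : Unit → ℂ) + s • Sum.elim (-v) (0 : Unit → ℂ)) =
        fromBlocks A (replicateCol Unit u) (replicateRow Unit (-(s • v))) 1 := by
      ext i j
      rcases i with i | i <;> rcases j with j | j <;> simp [updateRow_apply]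
    simp only [K]
    rw [this, det_fromBlocks_one₂₂, ← vecMulVec_eq]
    congr 1
    ext i j
    simp [vecMulVec_apply, mul_left_comm]
  have hK2 : ∀ s : ℂ, K (Sum.elim (0 : n → ℂ) (1 : Unit → ℂ) + s • Sum.elim (-v) (0 : Unit → ℂ)) =
      K (Sum.elim (0 : n → ℂ) (1 : Unit → ℂ)) + s * K (Sum.elim (-v) (0 : Unit → ℂ)) := by
    intro s
    simp only [K]
    rw [det_updateRow_add, det_updateRow_smul]
  have h0 := hK 0
  have h1 := hK 1
  have ht := hK t
  rw [hK2] at h0 h1 ht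
  simp only [zero_smul, add_zero, one_smul, zero_mul, one_mul] at h0 h1
  rw [← ht, ← h1, h0]
  ring

variable {σ : Type} [DecidableEq σ] [Fintype σ] (u : σ → n → ℂ)

/-- the pencil -/
noncomputable def MM (z : σ → ℂ) : Matrix n n ℂ := ∑ k, z k • vecMulVec (u k) (star (u k))

/-- coefficient -/
noncomputable def cc (k : σ) (w : n → ℂ) : ℂ := star (u k) ⬝ᵥ w

/-- real quadratic form -/
noncomputable def QQ (x : σ → ℝ) (w : n → ℂ) : ℝ := ∑ k, x k * ‖cc u k w‖ ^ 2

lemma MM_add (z z' : σ → ℂ) : MM u (z + z') = MM u z + MM u z' := by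
  simp [MM, add_smul, Finset.sum_add_distrib]

lemma MM_ee (t : ℂ) (k : σ) : MM u (t • ee k) = t • vecMulVec (u k) (star (u k)) := by
  unfold MM
  rw [Finset.sum_eq_single k]
  · simp [ee]
  · intro j _ hj; simp [ee, hj]
  · simp

lemma MM_mulVec (z : σ → ℂ) (w : n → ℂ) : MM u z *ᵥ w = ∑ k, (z k * cc u k w) • u k := by
  unfold MM
  rw [Matrix.sum_mulVec]
  apply Finset.sum_congr rfl
  intro k _
  rw [Matrix.smul_mulVec, vecMulVec_mulVec]
  ext a
  simp [cc]
  ring

lemma star_dot (k : σ) (w : n → ℂ) : star w ⬝ᵥ u k = (starRingEnd ℂ) (cc u k w) := by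
  unfold cc
  simp [dotProduct, mul_comm]

lemma form (z : σ → ℂ) (w : n → ℂ) :
    star w ⬝ᵥ (MM u z *ᵥ w) = ∑ k, z k * ((‖cc u k w‖ ^ 2 : ℝ) : ℂ) := by
  rw [MM_mulVec, dotProduct_sum]
  apply Finset.sum_congr rfl
  intro k _
  rw [dotProduct_smul, star_dot, smul_eq_mul, mul_assoc, Complex.mul_conj, Complex.normSq_eq_norm_sq]

lemma form_real (x : σ → ℝ) (w : n → ℂ) : star w ⬝ᵥ (MM u (rr x) *ᵥ w) = (QQ u x w : ℂ) := by
  rw [form]; simp [QQ, rr]

lemma MM_herm (x : σ → ℝ) : (MM u (rr x)).IsHermitian := by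
  unfold MM IsHermitian
  rw [conjTranspose_sum]
  apply Finset.sum_congr rfl
  intro k _
  rw [conjTranspose_smul, conjTranspose_vecMulVec, star_star]
  simp [rr]

/-- the determinant of the pencil -/
noncomputable def PP (z : σ → ℂ) : ℂ := det (MM u z)

lemma PP_nice (hu : ∀ w : n → ℂ, (∀ k, cc u k w = 0) → w = 0) : Nice (PP u) := by
  refine ⟨⟨?_, ?_, ?_⟩, ?_⟩
  · intro z k t
    have h1 := MM_ee u 1 k
    rw [one_smul, one_smul] at h1
    simp only [pd, PP, MM_add, MM_ee, h1]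
    exact det_affine _ _ _ _
  · unfold PP MM
    apply Continuous.matrix_det
    fun_prop
  · intro x
    have h := (MM_herm u x)
    have h2 : star (det (MM u (rr x))) = det (MM u (rr x)) := by
      rw [← det_conjTranspose, h.eq]
    exact Complex.conj_eq_iff_im.1 h2
  · intro z hz h0
    obtain ⟨w, hw, hw0⟩ := Matrix.exists_mulVec_eq_zero_iff.2 h0
    have h1 := form u z w
    rw [hw0, dotProduct_zero] at h1
    have h2 := congrArg Complex.im h1
    simp only [Complex.zero_im, Complex.im_sum, Complex.mul_im, Complex.ofReal_im, mul_zero,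
      Complex.ofReal_re, zero_add] at h2
    rw [eq_comm, Finset.sum_eq_zero_iff_of_nonneg
      (fun k _ => mul_nonneg (hz k).le (by positivity))] at h2
    refine hw (hu w fun k => ?_)
    have h3 := h2 k (Finset.mem_univ k)
    rcases mul_eq_zero.1 h3 with h | h
    · exact absurd h (hz k).ne'
    · simpa using h

lemma posDef_of (x : σ → ℝ) (h : ∀ w, w ≠ 0 → 0 < QQ u x w) : (MM u (rr x)).PosDef := by
  apply PosDef.of_dotProduct_mulVec_pos (MM_herm u x)
  intro w hw
  rw [form_real]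
  exact_mod_cast h w hw

lemma PP_pos (x : σ → ℝ) (h : ∀ w, w ≠ 0 → 0 < QQ u x w) : 0 < re' (PP u) x := by
  have := (posDef_of u x h).det_pos
  exact (Complex.lt_def.1 this).1

/-- squared norm -/
noncomputable def NN (w : n → ℂ) : ℝ := ∑ a, ‖w a‖ ^ 2

lemma NN_nonneg (w : n → ℂ) : 0 ≤ NN w := Finset.sum_nonneg fun _ _ => by positivity

lemma NN_pos {w : n → ℂ} (hw : w ≠ 0) : 0 < NN w := by
  obtain ⟨a, ha⟩ := Function.ne_iff.1 hw
  refine Finset.sum_pos' (fun _ _ => by positivity) ⟨a, Finset.mem_univ a, ?_⟩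
  have : 0 < ‖w a‖ := norm_pos_iff.2 ha
  positivity

lemma cs (k : σ) (w : n → ℂ) : ‖cc u k w‖ ^ 2 ≤ NN (u k) * NN w := by
  have h1 : ‖cc u k w‖ ≤ ∑ a, ‖u k a‖ * ‖w a‖ := by
    unfold cc dotProduct
    refine (norm_sum_le _ _).trans (le_of_eq ?_)
    simp
  exact (pow_le_pow_left₀ (norm_nonneg _) h1 2).trans (Finset.sum_mul_sq_le_sq_mul_sq _ _ _)

lemma pd_le (x : σ → ℝ) (h : ∀ w, NN w / 4 ≤ QQ u x w) (k : σ) :
    pd k (re' (PP u)) x ≤ 4 * NN (u k) * re' (PP u) x := by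
  have hpos : ∀ w, w ≠ 0 → 0 < QQ u x w := fun w hw => by
    have := NN_pos hw; linarith [h w]
  have hA := posDef_of u x hpos
  have hdet : IsUnit (MM u (rr x)).det := (Matrix.isUnit_iff_isUnit_det _).1 hA.isUnit
  set w := (MM u (rr x))⁻¹ *ᵥ u k with hw
  have h1 : MM u (rr x) *ᵥ w = u k := by
    rw [hw, mulVec_mulVec, Matrix.mul_nonsing_inv _ hdet, one_mulVec]
  have h2 : cc u k w = (QQ u x w : ℂ) := by
    have := form_real u x w
    rw [h1, star_dot] at this
    have h3 := congrArg (starRingEnd ℂ) this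
    simpa using h3
  have h3 : PP u (rr (x + ee k)) = PP u (rr x) * (1 + cc u k w) := by
    have h4 := MM_ee u 1 k
    rw [one_smul, one_smul] at h4
    rw [rr_add, rr_ee]
    simp only [PP]
    rw [MM_add, h4, vecMulVec_eq Unit, det_add_replicateCol_mul_replicateRow hdet,
      det_unique (n := Unit)]
    congr 1
    rw [Matrix.mul_assoc, ← replicateCol_mulVec]
    simp [cc, hw]
  have h5 : QQ u x w ≤ 4 * NN (u k) := by
    have c1 := cs u k w
    rw [h2, Complex.norm_real, Real.norm_eq_abs, sq_abs] at c1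
    have c2 := h w
    have c3 := NN_nonneg w
    have c4 := NN_nonneg (u k)
    by_contra hc
    push Not at hc
    nlinarith
  have h6 := PP_pos u x hpos
  simp only [pd, re'] at h6 ⊢
  rw [h3, h2]
  simp only [Complex.mul_re, Complex.add_re, Complex.one_re, Complex.ofReal_re, Complex.add_im,
    Complex.one_im, Complex.ofReal_im, add_zero, mul_zero, sub_zero]
  nlinarith

lemma QQ_sub (x y : σ → ℝ) (w : n → ℂ) : QQ u (x - y) w = QQ u x w - QQ u y w := by
  simp [QQ, sub_mul, Finset.sum_sub_distrib]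

lemma QQ_add (x y : σ → ℝ) (w : n → ℂ) : QQ u (x + y) w = QQ u x w + QQ u y w := by
  simp [QQ, add_mul, Finset.sum_add_distrib]

lemma QQ_smul (t : ℝ) (x : σ → ℝ) (w : n → ℂ) : QQ u (t • x) w = t * QQ u x w := by
  simp [QQ, Finset.mul_sum, mul_assoc]

lemma QQ_ee (k : σ) (w : n → ℂ) : QQ u (ee k) w = ‖cc u k w‖ ^ 2 := by
  unfold QQ
  rw [Finset.sum_eq_single k]
  · simp [ee]
  · intro j _ hj; simp [ee, hj]
  · simp

lemma QQ_sum {ι : Type} (s : Finset ι) (x : ι → σ → ℝ) (w : n → ℂ) :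
    QQ u (∑ i ∈ s, x i) w = ∑ i ∈ s, QQ u (x i) w := by
  simp only [QQ, Finset.sum_apply, Finset.sum_mul]
  exact Finset.sum_comm

lemma QQ_mono {x y : σ → ℝ} (h : x ≤ y) (w : n → ℂ) : QQ u x w ≤ QQ u y w :=
  Finset.sum_le_sum fun k _ => mul_le_mul_of_nonneg_right (h k) (by positivity)

theorem mss_matrix {ι : Type} [Fintype ι] (v : ι → Bool → n → ℂ)
    (h1 : ∀ w : n → ℂ, ∑ i, (‖star (v i false) ⬝ᵥ w‖ ^ 2 + ‖star (v i true) ⬝ᵥ w‖ ^ 2) ≤ NN w)
    (h2 : ∀ i b, NN (v i b) ≤ 1 / 40) :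
    ∃ c : ι → Bool, ∀ w : n → ℂ, ∑ i, ‖star (v i (c i)) ⬝ᵥ w‖ ^ 2 ≤ 3 / 4 * NN w := by
  classical
  let u : n ⊕ (ι × Bool) → n → ℂ := Sum.elim (fun a => Pi.single a 1) (fun p => v p.1 p.2)
  let b : n ⊕ (ι × Bool) → ℝ := Sum.elim 1 0
  have hc1 : ∀ a w, cc u (Sum.inl a) w = w a := by
    intro a w
    simp [cc, u]
  have hc2 : ∀ i t w, cc u (Sum.inr (i, t)) w = star (v i t) ⬝ᵥ w := fun _ _ _ => rfl
  have hb0 : 0 ≤ b := by rintro (a | a) <;> simp [b]
  have hQb : ∀ w, QQ u b w = NN w := by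
    intro w
    simp [QQ, b, hc1, NN]
  have hMb : ∀ w, MM u (rr b) *ᵥ w = w := by
    intro w
    rw [MM_mulVec]
    ext a
    simp [rr, b, hc1, u, Finset.sum_apply, Pi.single_apply]
  have hN : Nice (PP u) := PP_nice u (fun w hw => funext fun a => by
    have := hw (Sum.inl a); rwa [hc1] at this)
  have hQ0 : ∀ w, NN w / 4 ≤ QQ u ((3 / 2 : ℝ) • b - ∑ j, (5 / 4 : ℝ) •
      (ee (Sum.inr (j, false)) + ee (Sum.inr (j, true)))) w := by
    intro w
    rw [QQ_sub, QQ_smul, hQb, QQ_sum]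
    simp only [QQ_smul, QQ_add, QQ_ee, hc2]
    rw [← Finset.mul_sum]
    linarith [h1 w]
  obtain ⟨c, hc, hab⟩ := abstract_mss (fun j : ι => (Sum.inr (j, false) : n ⊕ (ι × Bool)))
    (fun j => Sum.inr (j, true)) hN (y := (3 / 2 : ℝ) • b) (δ := 5 / 4) (φ := 1 / 5)
    (by norm_num) (by norm_num)
    (fun x hx => PP_pos u x fun w hw => by
      have := NN_pos hw
      linarith [hQ0 w, QQ_mono u hx w])
    (fun i => by
      have p0 := PP_pos u _ fun w hw => by
        have := NN_pos hw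
        exact lt_of_lt_of_le (by linarith) (hQ0 w)
      have p1 := pd_le u _ hQ0 (Sum.inr (i, false))
      have p2 := pd_le u _ hQ0 (Sum.inr (i, true))
      have q1 : NN (u (Sum.inr (i, false))) ≤ 1 / 40 := h2 i false
      have q2 : NN (u (Sum.inr (i, true))) ≤ 1 / 40 := h2 i true
      simp only [DD]
      nlinarith)
  have hc' : ∀ j, ∃ t : Bool, c j = Sum.inr (j, t) := fun j =>
    (hc j).elim (fun h => ⟨false, h⟩) (fun h => ⟨true, h⟩)
  choose t ht using hc'
  refine ⟨t, fun w => ?_⟩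
  set y1 := (3 / 2 : ℝ) • b - ∑ j, (2 : ℝ) • ee (c j) with hy1
  have hH := MM_herm u y1
  have hpsd : (MM u (rr y1)).PosSemidef := by
    rw [hH.posSemidef_iff_eigenvalues_nonneg]
    intro a
    by_contra hneg
    simp only [Pi.zero_apply, not_le] at hneg
    have e1 := hH.mulVec_eigenvectorBasis a
    have e2 : (⇑(hH.eigenvectorBasis a) : n → ℂ) ≠ 0 := by
      intro h0
      have := hH.eigenvectorBasis.orthonormal.ne_zero a
      apply this
      ext j
      exact congrFun h0 j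
    have e3 : MM u (rr (y1 + (-hH.eigenvalues a) • b)) *ᵥ ⇑(hH.eigenvectorBasis a) = 0 := by
      have e4 : MM u (rr ((-hH.eigenvalues a) • b)) =
          ((-hH.eigenvalues a : ℝ) : ℂ) • MM u (rr b) := by
        rw [rr_smul]; simp only [MM, Finset.smul_sum, Pi.smul_apply, smul_eq_mul, mul_smul]
      rw [rr_add, MM_add, add_mulVec, e1, e4, smul_mulVec, hMb]
      ext j
      simp
    have e5 := Matrix.exists_mulVec_eq_zero_iff.1 ⟨_, e2, e3⟩
    have e6 := hab (y1 + (-hH.eigenvalues a) • b)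
      (le_add_of_nonneg_right (smul_nonneg (by linarith) hb0))
    simp only [re', PP] at e6
    rw [e5] at e6
    simp at e6
  have h3 := hpsd.dotProduct_mulVec_nonneg w
  rw [form_real] at h3
  have h4 : 0 ≤ QQ u y1 w := by exact_mod_cast h3
  rw [hy1, QQ_sub, QQ_smul, hQb, QQ_sum] at h4
  simp only [QQ_smul, QQ_ee, ht, hc2] at h4
  rw [← Finset.mul_sum] at h4
  linarith

end Pool.Agent.H494Z.MSS
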