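import Mathlib

set_option autoImplicit false

namespace Pool.Agent.H494Z.Ghost

open scoped NNReal Classical

/-- bounded operators on the Hilbert space of square summable functions on `X` -/
abbrev Op (X : Type) := lp (fun _ : X => ℂ) 2 →L[ℂ] lp (fun _ : X => ℂ) 2

/-- the matrix entry of `T` in row `x` and column `y` -/
noncomputable def entry {X : Type} (T : Op X) (x y : X) : ℂ :=
  inner ℂ (lp.single 2 x (1 : ℂ) : lp (fun _ : X => ℂ) 2)
    (T (lp.single 2 y (1 : ℂ) : lp (fun _ : X => ℂ) 2))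

/-- uniformly locally finite metric space -/
def ULF (X : Type) [MetricSpace X] : Prop :=
  ∀ r : ℝ, 0 < r → ∃ N : ℕ, ∀ x : X, (Metric.closedBall x r).encard ≤ (N : ℕ∞)

/-- the uniform Roe algebra: the norm closure of the operators of finite propagation -/
def Roe (X : Type) [MetricSpace X] : Set (Op X) :=
  closure {T | ∃ r : ℝ, ∀ x y : X, r < dist x y → entry T x y = 0}

/-- the matrix entries of `T` tend to zero at infinity -/
def IsGhost {X : Type} (T : Op X) : Prop :=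
  ∀ ε : ℝ, 0 < ε → ∃ F : Set X, F.Finite ∧ ∀ x y : X, ¬ (x ∈ F ∧ y ∈ F) → ‖entry T x y‖ < ε

/-- `S` is a disjoint union of finite nonempty pieces whose mutual distances tend to infinity -/
def IsSparse {X : Type} [MetricSpace X] (S : Set X) : Prop :=
  ∃ P : ℕ → Set X, (∀ n, (P n).Finite ∧ (P n).Nonempty) ∧
    (∀ n m, n ≠ m → Disjoint (P n) (P m)) ∧ S = ⋃ n, P n ∧
    ∀ R : ℝ, ∃ K : ℕ, ∀ n m, n ≠ m → K ≤ n + m → ∀ x ∈ P n, ∀ y ∈ P m, R ≤ dist x y

/-- all sparse subspaces of `X` yield only compact ghost projections -/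
def OnlyCompactGhosts (X : Type) [MetricSpace X] : Prop :=
  ∀ S : Set X, IsSparse S → ∀ p ∈ Roe S, IsStarProjection p → IsGhost p → IsCompactOperator p

/-- coarse embedding -/
def IsCoarseEmbedding {Y X : Type} [MetricSpace Y] [MetricSpace X] (f : Y → X) : Prop :=
  ∃ ρ₁ ρ₂ : ℝ≥0 → ℝ≥0, Monotone ρ₁ ∧ Monotone ρ₂ ∧ Filter.Tendsto ρ₁ Filter.atTop Filter.atTop ∧
    ∀ y y' : Y, ρ₁ (nndist y y') ≤ nndist (f y) (f y') ∧ nndist (f y) (f y') ≤ ρ₂ (nndist y y')

end Pool.Agent.H494Z.Ghost
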