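import Pool.Agent.H494Z.MSS.Hilbert
import Pool.Agent.H596Z.Roe.Basic

set_option autoImplicit false

namespace Pool.Agent.H494Z.Ghost

open scoped InnerProductSpace
open Pool.Agent.H812R3.KP Pool.Agent.H596Z.Roe

variable {Y : Type}

theorem compact_mul_left (a : B Y) {b : B Y} (hb : IsCompactOperator b) :
    IsCompactOperator (a * b : B Y) := hb.clm_comp a

theorem compact_mul_right {a : B Y} (ha : IsCompactOperator a) (b : B Y) :
    IsCompactOperator (a * b : B Y) := ha.comp_clm b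

theorem compact_mu (x y : Y) : IsCompactOperator (mu x y) := by
  have h : IsCompactOperator (innerSL ℂ (dl y : L2 Y)) :=
    isCompactOperator_of_locallyCompactSpace_dom _
  have h2 := h.clm_comp (ContinuousLinearMap.toSpanSingleton ℂ (dl x : L2 Y))
  have e : ⇑(mu x y) = ⇑(ContinuousLinearMap.toSpanSingleton ℂ (dl x : L2 Y)) ∘
      ⇑(innerSL ℂ (dl y : L2 Y)) := by
    funext ξ
    rw [mu_apply, Function.comp_apply, innerSL_apply_apply, inner_dl]
    rfl
  rw [e]
  exact h2

theorem proj_diag {q : B Y} (hq : IsStarProjection q) (y : Y) :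
    ent q y y = ((‖q (dl y)‖ ^ 2 : ℝ) : ℂ) := by
  have h1 : q (dl y) = q (q (dl y)) := by
    rw [← mul_apply_eq_comp, hq.isIdempotentElem.eq]
  rw [ent, h1, apply_eq_inner, hq.isSelfAdjoint.star_eq, ← h1, inner_self_eq_norm_sq_to_K]
  simp

theorem norm_proj_apply {q : B Y} (hq : IsStarProjection q) (ξ : L2 Y) : ‖q ξ‖ ≤ ‖ξ‖ :=
  (q.le_opNorm ξ).trans (by
    have := hq.norm_le
    nlinarith [norm_nonneg ξ])

variable [MetricSpace Y]

/-- a non-compact projection of the uniform Roe algebra -/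
structure Proj (q : B Y) : Prop where
  proj : IsStarProjection q
  mem : q ∈ UR Y
  ncpt : ¬ IsCompactOperator q

theorem kill_one {q : B Y} (hq : Proj q) (y0 : Y) :
    ∃ q' : B Y, Proj q' ∧ q' (dl y0) = 0 ∧ q' * q = q' := by
  obtain ⟨s, hs⟩ : ∃ s : ℂ, s = ent q y0 y0 := ⟨_, rfl⟩
  have hs' : star s = s := by rw [hs, proj_diag hq.proj]; simp
  have hqq := hq.proj.isIdempotentElem.eq
  have hmu : mu y0 y0 * q * mu y0 y0 = s • mu y0 y0 := by
    ext ξ : 1
    rw [mul_apply_eq_comp, mul_apply_eq_comp, mu_apply, mu_apply, map_smul,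
      smul_apply, mu_apply, lp.coeFn_smul, Pi.smul_apply, smul_smul, hs, ent,
      smul_eq_mul, mul_comm]
  let r : B Y := s⁻¹ • (q * mu y0 y0 * q)
  have hr : IsStarProjection r := by
    constructor
    · show r * r = r
      simp only [r, smul_mul_assoc, mul_smul_comm, smul_smul]
      have : q * mu y0 y0 * q * (q * mu y0 y0 * q) = s • (q * mu y0 y0 * q) := by
        calc _ = q * (mu y0 y0 * (q * q) * mu y0 y0) * q := by noncomm_ring
          _ = _ := by rw [hqq, hmu, mul_smul_comm, smul_mul_assoc]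
      rw [this, smul_smul]
      congr 1
      by_cases h0 : s = 0
      · simp [h0]
      · field_simp
    · show star r = r
      simp only [r, star_smul, star_mul, star_mu, hq.proj.isSelfAdjoint.star_eq, star_inv₀, hs',
        mul_assoc]
  have hrq : r * q = r := by
    simp only [r, smul_mul_assoc, mul_assoc, hqq]
  have hrc : IsCompactOperator r :=
    (compact_mul_right (compact_mul_left q (compact_mu y0 y0)) q).smul s⁻¹
  refine ⟨q - r, ⟨hr.sub_of_mul_eq_left hq.proj hrq, ?_, ?_⟩, ?_, ?_⟩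
  · exact sub_mem hq.mem ((UR Y).smul_mem
      (mul_mem (mul_mem hq.mem (FP_sub_UR Y (mu_mem_FP y0 y0))) hq.mem) _)
  · intro hc
    apply hq.ncpt
    have := hc.add hrc
    have e : ⇑q = ⇑(q - r) + ⇑r := by
      funext ξ
      simp
    rw [e]
    exact this
  · rw [sub_apply]
    simp only [r, smul_apply, mul_apply_eq_comp, mu_apply, map_smul]
    change q (dl y0) - s⁻¹ • ent q y0 y0 • q (dl y0) = 0
    rw [← hs, smul_smul]
    by_cases h0 : s = 0
    · rw [hs, proj_diag hq.proj] at h0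
      have : q (dl y0) = 0 := by simpa using h0
      simp [this]
    · rw [inv_mul_cancel₀ h0, one_smul, sub_self]
  · rw [sub_mul, hqq, hrq]

theorem kill_fin {q : B Y} (hq : Proj q) {F : Set Y} (hF : F.Finite) :
    ∃ q' : B Y, Proj q' ∧ (∀ y ∈ F, q' (dl y) = 0) ∧ q' * q = q' := by
  induction F, hF using Set.Finite.induction_on with
  | empty => exact ⟨q, hq, by simp, hq.proj.isIdempotentElem.eq⟩
  | @insert a F _ _ ih =>
    obtain ⟨q1, h1, h2, h3⟩ := ih
    obtain ⟨q2, h4, h5, h6⟩ := kill_one h1 a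
    refine ⟨q2, h4, ?_, by rw [← h6, mul_assoc, h3]⟩
    rintro y (rfl | hy)
    · exact h5
    · rw [← h6, mul_apply_eq_comp, h2 y hy, map_zero]

theorem cut_mem (S : Set Y) : cut S ∈ UR Y := by
  classical
  refine FP_sub_UR Y ⟨0, fun x y h => ?_⟩
  rw [ent_cut, if_neg]
  rintro ⟨rfl, _⟩
  simp at h

theorem compress {q : B Y} (hq : Proj q) (Z : Set Y) (hZ : ‖cut Z * q‖ < 1) :
    ∃ q' a : B Y, Proj q' ∧ q' = a * q * cut Zᶜ := by
  have hqq := hq.proj.isIdempotentElem.eq
  have hqs := hq.proj.isSelfAdjoint.star_eq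
  obtain ⟨t, ht⟩ : ∃ t, t = q * cut Z * q := ⟨_, rfl⟩
  have htn : ‖t‖ < 1 := by
    rw [ht, mul_assoc]
    refine lt_of_le_of_lt (norm_mul_le _ _) ?_
    have := hq.proj.norm_le
    nlinarith [norm_nonneg (cut Z * q)]
  obtain ⟨R, hR⟩ : ∃ R, R = ∑' i : ℕ, t ^ i := ⟨_, rfl⟩
  have h1 : R * (1 - t) = 1 := hR ▸ geom_series_mul_neg t htn
  have h2 : (1 - t) * R = 1 := hR ▸ mul_neg_geom_series t htn
  have htm : t ∈ UR Y := ht ▸ mul_mem (mul_mem hq.mem (cut_mem Z)) hq.mem
  have hRm : R ∈ UR Y := hR ▸ tsum_mem (FPalg Y).isClosed_topologicalClosure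
    (fun i => pow_mem htm i)
  have hts : star t = t := by rw [ht, star_mul, star_mul, hqs, star_cut, mul_assoc]
  have hRs : star R = R := by
    have h3 : star R * (1 - t) = 1 := by
      have := congrArg star h2
      rwa [star_mul, star_sub, star_one, hts] at this
    calc star R = star R * ((1 - t) * R) := by rw [h2, mul_one]
      _ = R := by rw [← mul_assoc, h3, one_mul]
  have hqt : q * t = t := by rw [ht, ← mul_assoc, ← mul_assoc, hqq]
  have htq : t * q = t := by rw [ht, mul_assoc, hqq]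
  have hqS : q * (1 - t) = (1 - t) * q := by rw [mul_sub, sub_mul, hqt, htq, mul_one, one_mul]
  have hqR : q * R = R * q := by
    calc q * R = R * (1 - t) * q * R := by rw [h1, one_mul]
      _ = R * (q * (1 - t)) * R := by rw [hqS]; noncomm_ring
      _ = R * q * ((1 - t) * R) := by noncomm_ring
      _ = R * q := by rw [h2, mul_one]
  obtain ⟨C, hC⟩ : ∃ C : B Y, C = cut Zᶜ := ⟨_, rfl⟩
  have hCC : C * C = C := by rw [hC, cut_mul_cut, Set.inter_self]
  have hqC : q * C * q = q * (1 - t) := by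
    have : C = 1 - cut Z := by rw [hC, ← cut_add_compl Z]; abel
    rw [this, mul_sub q 1 t, hqt, ht, mul_sub, sub_mul, mul_one, hqq]
  refine ⟨C * q * R * q * C, C * q * R, ⟨⟨?_, ?_⟩, ?_, ?_⟩, by rw [hC]⟩
  · show _ * _ = _
    calc C * q * R * q * C * (C * q * R * q * C)
        = C * q * R * (q * (C * C) * q) * R * q * C := by noncomm_ring
      _ = C * q * R * q * ((1 - t) * R) * q * C := by rw [hCC, hqC]; noncomm_ring
      _ = C * q * R * (q * q) * C := by rw [h2]; noncomm_ring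
      _ = _ := by rw [hqq]
  · show star _ = _
    have hCs : star C = C := by rw [hC, star_cut]
    simp only [star_mul, hCs, hqs, hRs, mul_assoc]
  · have hCm : C ∈ UR Y := hC ▸ cut_mem _
    exact mul_mem (mul_mem (mul_mem (mul_mem hCm hq.mem) hRm) hq.mem) hCm
  · intro hc
    apply hq.ncpt
    have h4 : q * (C * q * R * q * C) * (q * R) = q := by
      calc q * (C * q * R * q * C) * (q * R)
          = (q * C * q) * R * (q * C * q) * R := by noncomm_ring
        _ = q * ((1 - t) * R) * q * ((1 - t) * R) := by rw [hqC]; noncomm_ring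
        _ = q := by rw [h2, mul_one, mul_one, hqq]
    rw [← h4]
    exact compact_mul_right (compact_mul_left q hc) _

/-- `W` supports a non-compact ghost projection -/
def Good (W : Set Y) : Prop :=
  ∃ q : B Y, Proj q ∧ (∀ ε : ℝ, 0 < ε → {y | ε ≤ ‖q (dl y)‖}.Finite) ∧ ∀ y ∉ W, q (dl y) = 0

theorem good_step {W : Set Y} (hW : Good W) {J : Type} (pt : J → Bool → Y)
    (hpt : Function.Injective (fun p : J × Bool => pt p.1 p.2)) :
    ∃ c : J → Bool, Good (W \ Set.range (fun j => pt j (c j))) := by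
  classical
  obtain ⟨q, hq, hd, hs⟩ := hW
  obtain ⟨q1, h1, h2, h3⟩ := kill_fin hq (hd (1 / 7) (by norm_num))
  have hle : ∀ y, ‖q1 (dl y)‖ ≤ ‖q (dl y)‖ := by
    intro y
    rw [← h3, mul_apply_eq_comp]
    exact norm_proj_apply h1.proj _
  have hsm : ∀ y, ‖q1 (dl y)‖ ≤ 1 / 7 := by
    intro y
    by_cases hy : 1 / 7 ≤ ‖q (dl y)‖
    · rw [h2 y hy]; simp
    · exact (hle y).trans (not_le.1 hy).le
  have hin : ∀ y w, ⟪q1 (dl y), w⟫_ℂ = (q1 w) y := by
    intro y w
    rw [apply_eq_inner, h1.proj.isSelfAdjoint.star_eq]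
  obtain ⟨c, hc⟩ := MSS.mss_inf (fun j b => q1 (dl (pt j b))) (fun s w => by
      simp only [hin]
      have e1 : ∑ i ∈ s, (‖(q1 w) (pt i false)‖ ^ 2 + ‖(q1 w) (pt i true)‖ ^ 2) =
          ∑ y ∈ (s ×ˢ Finset.univ).image (fun p : J × Bool => pt p.1 p.2), ‖(q1 w) y‖ ^ 2 := by
        rw [Finset.sum_image (fun a _ b _ h => hpt h), Finset.sum_product]
        simp [add_comm]
      rw [e1]
      exact (sum_sq_le _ _).trans (pow_le_pow_left₀ (norm_nonneg _) (norm_proj_apply h1.proj w) 2))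
    (fun j b => (pow_le_pow_left₀ (norm_nonneg _) (hsm _) 2).trans (by norm_num))
  simp only [hin] at hc
  refine ⟨c, ?_⟩
  have hinj : Function.Injective (fun j => pt j (c j)) := fun a b h =>
    congrArg Prod.fst (hpt (a₁ := (a, c a)) (a₂ := (b, c b)) h)
  have hZ : ‖cut (Set.range (fun j => pt j (c j))) * q1‖ < 1 := by
    refine lt_of_le_of_lt (ContinuousLinearMap.opNorm_le_bound _ (M := 7 / 8) (by norm_num)
      fun w => ?_) (by norm_num)
    refine norm_le_of_sum (by positivity) fun s => ?_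
    have e1 : ∑ x ∈ s, ‖((cut (Set.range (fun j => pt j (c j))) * q1) w) x‖ ^ 2 =
        ∑ j ∈ s.preimage (fun j => pt j (c j)) hinj.injOn, ‖(q1 w) (pt j (c j))‖ ^ 2 := by
      rw [Finset.sum_preimage' (fun j => pt j (c j)) s hinj.injOn (fun y => ‖(q1 w) y‖ ^ 2),
        Finset.sum_filter]
      apply Finset.sum_congr rfl
      intro x _
      rw [mul_apply_eq_comp, cut_apply]
      split_ifs <;> simp
    rw [e1]
    refine (hc _ w).trans ?_
    nlinarith [sq_nonneg ‖w‖]
  obtain ⟨q2, a, h4, h5⟩ := compress h1 _ hZ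
  have h6 : ∀ y, ‖q2 (dl y)‖ ≤ ‖a‖ * ‖q (dl y)‖ := by
    intro y
    rw [h5, mul_apply_eq_comp, mul_apply_eq_comp, cut_dl]
    refine (a.le_opNorm _).trans (mul_le_mul_of_nonneg_left ?_ (norm_nonneg _))
    split_ifs
    · exact hle y
    · simp
  refine ⟨q2, h4, fun ε hε => (hd (ε / (‖a‖ + 1)) (by positivity)).subset fun y hy => ?_,
    fun y hy => ?_⟩
  · have h7 : ε ≤ ‖q2 (dl y)‖ := hy
    show ε / (‖a‖ + 1) ≤ ‖q (dl y)‖
    rw [div_le_iff₀ (by positivity)]
    nlinarith [h6 y, norm_nonneg (q (dl y))]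
  · by_cases hyW : y ∈ W
    · have : y ∈ Set.range (fun j => pt j (c j)) := by
        by_contra h; exact hy ⟨hyW, h⟩
      rw [h5, mul_apply_eq_comp, cut_dl, if_neg (by simpa using this), map_zero]
    · have := h6 y
      rw [hs y hyW] at this
      simpa using this

theorem good_inj {X : Type} (f : Y → X) (N : ℕ) : ∀ (W : Set Y) (h : Y → ℕ),
    (∀ y ∈ W, h y ≤ N) → (∀ y ∈ W, ∀ y' ∈ W, f y = f y' → h y = h y' → y = y') → Good W →
    ∃ W' ⊆ W, Good W' ∧ Set.InjOn f W' := by
  induction N with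
  | zero =>
    intro W h h1 h2 hW
    exact ⟨W, le_rfl, hW, fun y hy y' hy' e => h2 y hy y' hy' e (by
      have := h1 y hy; have := h1 y' hy'; omega)⟩
  | succ N ih =>
    intro W h h1 h2 hW
    let J : Type := {p : Y × Y // p.1 ∈ W ∧ p.2 ∈ W ∧ h p.1 = 0 ∧ h p.2 = N + 1 ∧ f p.1 = f p.2}
    let pt : J → Bool → Y := fun j b => if b then j.1.2 else j.1.1
    have hpt : Function.Injective (fun p : J × Bool => pt p.1 p.2) := by
      rintro ⟨⟨⟨a, b⟩, a1, a2, a3, a4, a5⟩, s⟩ ⟨⟨⟨a', b'⟩, b1, b2, b3, b4, b5⟩, t⟩ e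
      dsimp only at a1 a2 a3 a4 a5 b1 b2 b3 b4 b5
      cases s <;> cases t <;> simp only [pt, if_true, if_false, Bool.false_eq_true] at e
      · subst e
        obtain rfl := h2 b a2 b' b2 (by rw [← a5, b5]) (by omega)
        rfl
      · subst e; omega
      · subst e; omega
      · subst e
        obtain rfl := h2 a a1 a' b1 (by rw [a5, b5]) (by omega)
        rfl
    obtain ⟨c, hc⟩ := good_step hW pt hpt
    have key : ∀ y ∈ W \ Set.range (fun j => pt j (c j)),
        ∀ y' ∈ W \ Set.range (fun j => pt j (c j)), f y = f y' → h y = 0 → h y' = N + 1 →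
        False := by
      intro y hy y' hy' e e1 e2
      let j : J := ⟨(y, y'), hy.1, hy'.1, e1, e2, e⟩
      cases hj : c j
      · exact hy.2 ⟨j, by simp [pt, hj, j]⟩
      · exact hy'.2 ⟨j, by simp [pt, hj, j]⟩
    obtain ⟨W', w1, w2, w3⟩ := ih _ (fun y => if h y = N + 1 then 0 else h y)
      (fun y hy => by
        have := h1 y hy.1
        split_ifs <;> omega)
      (fun y hy y' hy' e e' => by
        split_ifs at e' with c1 c2 c2
        · exact h2 y hy.1 y' hy'.1 e (by omega)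
        · exact (key y' hy' y hy e.symm e'.symm c1).elim
        · exact (key y hy y' hy' e e' c2).elim
        · exact h2 y hy.1 y' hy'.1 e e') hc
    exact ⟨W', w1.trans Set.sdiff_subset, w2, w3⟩

theorem Good.infinite {W : Set Y} (hW : Good W) : W.Infinite := by
  intro hf
  obtain ⟨q, hq, -, hs⟩ := hW
  obtain ⟨q', h1, h2, h3⟩ := kill_fin hq hf
  apply h1.ncpt
  have : q' = 0 := by
    apply ent_ext
    intro x y
    have : q' (dl y) = 0 := by
      by_cases hy : y ∈ W
      · exact h2 y hy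
      · rw [← h3, mul_apply_eq_comp, hs y hy, map_zero]
    simp [ent, this]
  rw [this]
  exact isCompactOperator_zero

end Pool.Agent.H494Z.Ghost
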