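import Pool.Agent.H494Z.MSS.Det

set_option autoImplicit false

namespace Pool.Agent.H494Z.MSS

open scoped InnerProductSpace
open Matrix

variable {H : Type} [NormedAddCommGroup H] [InnerProductSpace ℂ H]

theorem mss_fin {ι : Type} [Fintype ι] (v : ι → Bool → H)
    (h1 : ∀ w : H, ∑ i, (‖⟪v i false, w⟫_ℂ‖ ^ 2 + ‖⟪v i true, w⟫_ℂ‖ ^ 2) ≤ ‖w‖ ^ 2)
    (h2 : ∀ i b, ‖v i b‖ ^ 2 ≤ 1 / 40) :
    ∃ c : ι → Bool, ∀ w : H, ∑ i, ‖⟪v i (c i), w⟫_ℂ‖ ^ 2 ≤ 3 / 4 * ‖w‖ ^ 2 := by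
  classical
  let E : Submodule ℂ H := Submodule.span ℂ (Set.range (fun p : ι × Bool => v p.1 p.2))
  have : FiniteDimensional ℂ E := FiniteDimensional.span_of_finite ℂ (Set.finite_range _)
  let ob := stdOrthonormalBasis ℂ E
  let V : ι → Bool → E := fun i b => ⟨v i b, Submodule.subset_span ⟨(i, b), rfl⟩⟩
  have hN : ∀ W : E, NN (ob.repr W).ofLp = ‖W‖ ^ 2 := by
    intro W
    rw [← ob.repr.norm_map W, EuclideanSpace.norm_sq_eq]
    rfl
  have hI : ∀ i b (W : E), star (ob.repr (V i b)).ofLp ⬝ᵥ (ob.repr W).ofLp = ⟪v i b, (W : H)⟫_ℂ := by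
    intro i b W
    rw [dotProduct_comm, ← EuclideanSpace.inner_eq_star_dotProduct, ob.repr.inner_map_map]
    rfl
  obtain ⟨c, hc⟩ := mss_matrix (fun i b => (ob.repr (V i b)).ofLp) (fun w => by
      obtain ⟨W, hW⟩ := ob.repr.surjective (WithLp.toLp 2 w)
      have : w = (ob.repr W).ofLp := by rw [hW]
      rw [this, hN]
      simp only [hI]
      exact h1 W)
    (fun i b => by rw [hN]; exact h2 i b)
  refine ⟨c, fun w => ?_⟩
  have h3 := hc (ob.repr (E.orthogonalProjectionOnto w)).ofLp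
  rw [hN] at h3
  simp only [hI] at h3
  have h4 : ∀ i b, ⟪v i b, ((E.orthogonalProjectionOnto w : E) : H)⟫_ℂ = ⟪v i b, w⟫_ℂ := by
    intro i b
    exact Submodule.inner_orthogonalProjectionOnto_eq_of_mem_left (V i b) w
  simp only [h4] at h3
  have h5 : ‖E.orthogonalProjectionOnto w‖ ≤ ‖w‖ := Submodule.norm_orthogonalProjectionOnto_apply_le _ w
  have h6 := pow_le_pow_left₀ (norm_nonneg _) h5 2
  linarith

/-- Selection theorem for arbitrary families of pairs of short vectors. -/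
theorem mss_inf {J : Type} (v : J → Bool → H)
    (h1 : ∀ (s : Finset J) (w : H),
      ∑ i ∈ s, (‖⟪v i false, w⟫_ℂ‖ ^ 2 + ‖⟪v i true, w⟫_ℂ‖ ^ 2) ≤ ‖w‖ ^ 2)
    (h2 : ∀ i b, ‖v i b‖ ^ 2 ≤ 1 / 40) :
    ∃ c : J → Bool, ∀ (s : Finset J) (w : H),
      ∑ i ∈ s, ‖⟪v i (c i), w⟫_ℂ‖ ^ 2 ≤ 3 / 4 * ‖w‖ ^ 2 := by
  classical
  let t : Finset J → Set (J → Bool) := fun s =>
    {c | ∀ w : H, ∑ i ∈ s, ‖⟪v i (c i), w⟫_ℂ‖ ^ 2 ≤ 3 / 4 * ‖w‖ ^ 2}
  have hcl : ∀ s, IsClosed (t s) := by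
    intro s
    have : t s = ⋂ w : H, {c | ∑ i ∈ s, ‖⟪v i (c i), w⟫_ℂ‖ ^ 2 ≤ 3 / 4 * ‖w‖ ^ 2} := by
      ext c; simp [t]
    rw [this]
    refine isClosed_iInter fun w => isClosed_le ?_ continuous_const
    refine continuous_finsetSum _ fun i _ => ?_
    exact (continuous_of_discreteTopology (f := fun b : Bool => ‖⟪v i b, w⟫_ℂ‖ ^ 2)).comp
      (continuous_apply i)
  have hmono : ∀ s s' : Finset J, s ⊆ s' → t s' ⊆ t s := by
    intro s s' hs c hc w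
    exact (Finset.sum_le_sum_of_subset_of_nonneg hs (fun _ _ _ => by positivity)).trans (hc w)
  have hne : ∀ s, (t s).Nonempty := by
    intro s
    obtain ⟨c, hc⟩ := mss_fin (ι := s) (fun i b => v i b) (fun w => by
      have := h1 s w
      rwa [← Finset.sum_coe_sort s] at this) (fun i b => h2 i b)
    refine ⟨fun i => if h : i ∈ s then c ⟨i, h⟩ else false, fun w => ?_⟩
    rw [← Finset.sum_coe_sort s]
    simpa using hc w
  obtain ⟨c, hc⟩ := IsCompact.nonempty_iInter_of_directed_nonempty_isCompact_isClosed t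
    (fun s s' => ⟨s ∪ s', hmono _ _ Finset.subset_union_left, hmono _ _ Finset.subset_union_right⟩)
    hne (fun s => (hcl s).isCompact) hcl
  exact ⟨c, fun s => Set.mem_iInter.1 hc s⟩

end Pool.Agent.H494Z.MSS
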