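import Mathlib

/-!
Multi-affine stable functions, the barrier argument and the selection argument.
-/

set_option autoImplicit false
set_option linter.unusedSectionVars false

namespace Pool.Agent.H494Z.MSS

open Complex Filter Topology

variable {σ : Type} [DecidableEq σ] [Fintype σ]

section generic

variable {R : Type} [CommRing R]

/-- unit vector -/
def ee (k : σ) : σ → R := Pi.single k 1

/-- difference in the direction `k` -/
def pd (k : σ) (F : (σ → R) → R) : (σ → R) → R := fun z => F (z + ee k) - F z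

/-- affine in each variable -/
def MA (F : (σ → R) → R) : Prop := ∀ z k (t : R), F (z + t • ee k) = F z + t * pd k F z

lemma pd_comm (j k : σ) (F : (σ → R) → R) : pd j (pd k F) = pd k (pd j F) := by
  funext z
  simp only [pd]
  rw [add_right_comm z (ee j) (ee k)]
  ring

lemma MA.pd {F : (σ → R) → R} (hF : MA F) (k : σ) : MA (pd k F) := by
  intro z j t
  have h1 := hF (z + ee k) j t
  have h2 := hF z j t
  simp only [MSS.pd] at *
  rw [add_right_comm z (t • ee j) (ee k), h1, h2, add_right_comm z (ee j) (ee k)]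
  ring

lemma MA.sub {F G : (σ → R) → R} (hF : MA F) (hG : MA G) : MA (fun z => F z - G z) := by
  intro z j t
  have h1 := hF z j t
  have h2 := hG z j t
  simp only [MSS.pd] at *
  rw [h1, h2]; ring

lemma MA.add {F G : (σ → R) → R} (hF : MA F) (hG : MA G) : MA (fun z => F z + G z) := by
  intro z j t
  have h1 := hF z j t
  have h2 := hG z j t
  simp only [MSS.pd] at *
  rw [h1, h2]; ring

/-- the sum of two partial differences -/
def DD (a b : σ) (F : (σ → R) → R) : (σ → R) → R := fun z => pd a F z + pd b F z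

/-- the operator `1 - ∂_a - ∂_b` -/
def st (a b : σ) (F : (σ → R) → R) : (σ → R) → R := fun z => F z - DD a b F z

lemma MA.DD {F : (σ → R) → R} (hF : MA F) (a b : σ) : MA (DD a b F) :=
  (hF.pd a).add (hF.pd b)

lemma MA.st {F : (σ → R) → R} (hF : MA F) (a b : σ) : MA (st a b F) :=
  hF.sub (hF.DD a b)

lemma MA.two {F : (σ → R) → R} (hF : MA F) (z : σ → R) (a b : σ) (t : R) :
    F (z + t • (ee a + ee b)) = F z + t * MSS.DD a b F z + t ^ 2 * MSS.pd a (MSS.pd b F) z := by
  rw [smul_add, ← add_assoc, hF, hF, hF.pd b]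
  simp only [MSS.DD]
  ring

lemma MA.two' {F : (σ → R) → R} (hF : MA F) (z : σ → R) (a b : σ) (t : R) :
    MSS.DD a b F (z + t • (ee a + ee b)) =
      MSS.DD a b F z + 2 * t * MSS.pd a (MSS.pd b F) z := by
  have h1 := hF.two z a b (t + 1)
  have h2 := hF.two z a b t
  have h3 := hF.two (z + t • (ee a + ee b)) a b 1
  have h4 := hF.two z a b (t - 1)
  have h5 := hF.two (z + t • (ee a + ee b)) a b (-1)
  have e1 : z + t • (ee a + ee b) + (1 : R) • (ee a + ee b) = z + (t + 1) • (ee a + ee b) := by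
    rw [add_smul, add_assoc]
  have hpp : MSS.pd a (MSS.pd b F) (z + t • (ee a + ee b)) = MSS.pd a (MSS.pd b F) z := by
    have g1 : ∀ (G : (σ → R) → R), MA G → ∀ k w, MSS.pd k (MSS.pd k G) w = 0 := by
      intro G hG k w
      have a1 := hG w k 2
      have a2 : w + ee k + ee k = w + (2 : R) • ee k := by rw [two_smul, add_assoc]
      simp only [MSS.pd] at *
      rw [a2, a1]; ring
    rw [smul_add, ← add_assoc, (hF.pd b).pd a, (hF.pd b).pd a, g1 _ (hF.pd b), pd_comm b a,
      ]
    have : MSS.pd a (MSS.pd b (MSS.pd b F)) (z + t • ee a) = 0 := by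
      have : MSS.pd b (MSS.pd b F) = fun _ => 0 := funext (g1 F hF b)
      rw [this]; simp [MSS.pd]
    rw [this]; ring
  rw [e1, h1, h2, hpp] at h3
  linear_combination -h3

lemma DD_st (a b c d : σ) (F : (σ → R) → R) (z : σ → R) :
    DD a b (st c d F) z = DD a b F z - DD c d (DD a b F) z := by
  simp only [DD, st, pd]
  rw [add_right_comm z (ee a) (ee c), add_right_comm z (ee a) (ee d),
    add_right_comm z (ee b) (ee c), add_right_comm z (ee b) (ee d)]
  ring

lemma pd_st (k c d : σ) (F : (σ → R) → R) (z : σ → R) :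
    pd k (st c d F) z = pd k F z - pd k (DD c d F) z := by
  simp only [st, pd]
  ring

end generic

/-- real point as a complex point -/
def rr (x : σ → ℝ) : σ → ℂ := fun k => (x k : ℂ)

lemma rr_add (x y : σ → ℝ) : rr (x + y) = rr x + rr y := by
  funext k; simp [rr]

lemma rr_ee (k : σ) : rr (ee k) = ee k := by
  funext j; by_cases h : j = k <;> simp [rr, ee, h]

lemma rr_smul (t : ℝ) (x : σ → ℝ) : rr (t • x) = (t : ℂ) • rr x := by
  funext k; simp [rr]

/-- restriction to real points -/
def re' (F : (σ → ℂ) → ℂ) : (σ → ℝ) → ℝ := fun x => (F (rr x)).re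

lemma re_pd (k : σ) (F : (σ → ℂ) → ℂ) : re' (pd k F) = pd k (re' F) := by
  funext x; simp [re', pd, rr_add, rr_ee]

lemma re_DD (a b : σ) (F : (σ → ℂ) → ℂ) : re' (DD a b F) = DD a b (re' F) := by
  funext x; simp [re', DD, pd, rr_add, rr_ee]

lemma re_st (a b : σ) (F : (σ → ℂ) → ℂ) : re' (st a b F) = st a b (re' F) := by
  funext x; simp [re', st, DD, pd, rr_add, rr_ee]

/-- multi-affine, continuous, real at real points -/
structure Tame (F : (σ → ℂ) → ℂ) : Prop where
  ma : MA F
  cont : Continuous F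
  real : ∀ x, (F (rr x)).im = 0

lemma Tame.pd {F : (σ → ℂ) → ℂ} (hF : Tame F) (k : σ) : Tame (pd k F) where
  ma := hF.ma.pd k
  cont := (hF.cont.comp (continuous_id.add continuous_const)).sub hF.cont
  real x := by
    have h1 := hF.real (x + ee k)
    rw [rr_add, rr_ee] at h1
    simp [MSS.pd, h1, hF.real x]

lemma Tame.DD {F : (σ → ℂ) → ℂ} (hF : Tame F) (a b : σ) : Tame (DD a b F) where
  ma := hF.ma.DD a b
  cont := (hF.pd a).cont.add (hF.pd b).cont
  real x := by simp [MSS.DD, (hF.pd a).real x, (hF.pd b).real x]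

lemma Tame.st {F : (σ → ℂ) → ℂ} (hF : Tame F) (a b : σ) : Tame (st a b F) where
  ma := hF.ma.st a b
  cont := hF.cont.sub (hF.DD a b).cont
  real x := by simp [MSS.st, hF.real x, (hF.DD a b).real x]

lemma Tame.eq {F : (σ → ℂ) → ℂ} (hF : Tame F) (x : σ → ℝ) : F (rr x) = (re' F x : ℂ) := by
  apply Complex.ext <;> simp [re', hF.real x]

lemma Tame.ma_re {F : (σ → ℂ) → ℂ} (hF : Tame F) : MA (re' F) := by
  intro x k t
  rw [← re_pd]
  simp only [re']
  rw [rr_add, rr_smul, rr_ee, hF.ma]
  simp [(hF.pd k).real x]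

/-- no zero in the product of open upper half planes -/
def Stab (F : (σ → ℂ) → ℂ) : Prop := ∀ z : σ → ℂ, (∀ k, 0 < (z k).im) → F z ≠ 0

lemma im_pd {F : (σ → ℂ) → ℂ} (hF : MA F) (hs : Stab F) (k : σ) (z : σ → ℂ)
    (hz : ∀ j, 0 < (z j).im) :
    pd k F z = 0 ∨ (pd k F z * (starRingEnd ℂ) (F z)).im < 0 := by
  by_cases hc : pd k F z = 0
  · exact Or.inl hc
  right
  have h0 : F (z + (-(F z) / pd k F z) • ee k) = 0 := by
    rw [hF]; field_simp; ring
  by_contra hcon
  push Not at hcon
  refine hs _ (fun j => ?_) h0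
  by_cases hj : j = k
  · subst hj
    have : (-(F z) / pd j F z).im = (pd j F z * (starRingEnd ℂ) (F z)).im / normSq (pd j F z) := by
      rw [Complex.div_im]
      simp
      ring
    have h2 : 0 ≤ (-(F z) / pd j F z).im := by
      rw [this]; exact div_nonneg hcon (normSq_nonneg _)
    have h3 := hz j
    simp only [ee, Pi.add_apply, Pi.smul_apply, Pi.single_eq_same, smul_eq_mul, mul_one, add_im]
    linarith
  · simpa [ee, hj] using hz j

lemma Stab.st {F : (σ → ℂ) → ℂ} (hF : MA F) (hs : Stab F) (a b : σ) : Stab (st a b F) := by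
  intro z hz h0
  have hv := hs z hz
  have h1 : F z = pd a F z + pd b F z := by
    simp only [MSS.st, DD] at h0
    linear_combination h0
  have h2 : (pd a F z * (starRingEnd ℂ) (F z)).im + (pd b F z * (starRingEnd ℂ) (F z)).im = 0 := by
    rw [← add_im, ← add_mul, ← h1, mul_conj]; simp
  rcases im_pd hF hs a z hz with ha | ha <;> rcases im_pd hF hs b z hz with hb | hb
  · rw [ha, hb] at h1; exact hv (by simpa using h1)
  · rw [ha] at h2; simp only [zero_mul, zero_im] at h2; linarith
  · rw [hb] at h2; simp only [zero_mul, zero_im] at h2; linarith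
  · linarith

/-- the Pick type inequality on the closed upper half space -/
def Pick (A G : (σ → ℂ) → ℂ) : Prop :=
  ∀ z : σ → ℂ, (∀ k, 0 ≤ (z k).im) → (A z * (starRingEnd ℂ) (G z)).im ≤ 0

lemma pick_pd {F : (σ → ℂ) → ℂ} (hF : Tame F) (hs : Stab F) (k : σ) : Pick (pd k F) F := by
  intro z hz
  have hc : Continuous (fun η : ℝ =>
      (pd k F (z + fun _ => (η : ℂ) * I) * (starRingEnd ℂ) (F (z + fun _ => (η : ℂ) * I))).im) := by
    have h1 : Continuous (fun η : ℝ => (z + fun _ => (η : ℂ) * I : σ → ℂ)) := by fun_prop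
    exact continuous_im.comp (((hF.pd k).cont.comp h1).mul
      (continuous_conj.comp (hF.cont.comp h1)))
  have ht := (hc.tendsto 0).mono_left (nhdsWithin_le_nhds (s := Set.Ioi (0 : ℝ)))
  have e0 : (z + fun _ => ((0 : ℝ) : ℂ) * I : σ → ℂ) = z := by funext j; simp
  rw [e0] at ht
  refine le_of_tendsto ht ?_
  filter_upwards [self_mem_nhdsWithin] with η hη
  have hη' : 0 < η := hη
  rcases im_pd hF.ma hs k (z + fun _ => (η : ℂ) * I) (fun j => by
    have := hz j; simp; linarith) with h | h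
  · rw [h]; simp
  · exact h.le

lemma pick_DD {F : (σ → ℂ) → ℂ} (hF : Tame F) (hs : Stab F) (a b : σ) : Pick (DD a b F) F := by
  intro z hz
  have h1 := pick_pd hF hs a z hz
  have h2 := pick_pd hF hs b z hz
  simp only [DD, add_mul, add_im]
  linarith

lemma Pick.bez1 {A G : (σ → ℂ) → ℂ} (h : Pick A G) (hA : Tame A) (hG : Tame G) (x : σ → ℝ)
    (k : σ) : pd k (re' A) x * re' G x ≤ re' A x * pd k (re' G) x := by
  have h1 := h (rr x + I • ee k) (fun j => by
    by_cases hj : j = k <;> simp [rr, ee, hj])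
  rw [hA.ma, hG.ma, hA.eq, hG.eq, (hA.pd k).eq, (hG.pd k).eq, re_pd, re_pd] at h1
  simp at h1
  linarith

lemma Pick.bez2 {A G : (σ → ℂ) → ℂ} (h : Pick A G) (hA : Tame A) (hG : Tame G) (x : σ → ℝ)
    (a b : σ) (u y : ℝ) (hy : 0 < y) :
    (DD a b (re' A) x * re' G x - re' A x * DD a b (re' G) x) +
      2 * u * (pd a (pd b (re' A)) x * re' G x - re' A x * pd a (pd b (re' G)) x) +
      (u ^ 2 + y ^ 2) * (pd a (pd b (re' A)) x * DD a b (re' G) x -
        DD a b (re' A) x * pd a (pd b (re' G)) x) ≤ 0 := by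
  have h1 := h (rr x + ((u : ℂ) + y * I) • (ee a + ee b)) (fun j => by
    by_cases hj : j = a <;> by_cases hj' : j = b <;> simp [rr, ee, hj, hj', Pi.single_apply] <;>
      (try split_ifs) <;> (try simp) <;> positivity)
  rw [hA.ma.two, hG.ma.two, hA.eq, hG.eq, (hA.DD a b).eq, (hG.DD a b).eq,
    ((hA.pd b).pd a).eq, ((hG.pd b).pd a).eq, re_DD, re_DD, re_pd, re_pd, re_pd, re_pd] at h1
  simp [pow_two] at h1
  refine le_of_mul_le_mul_left ?_ hy
  nlinarith [h1]

end Pool.Agent.H494Z.MSS
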