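import Pool.Agent.H494Z.MSS.Good
import Pool.Agent.H494Z.MSS.GhostDefs

set_option autoImplicit false

namespace Pool.Agent.H494Z.Ghost

open scoped InnerProductSpace NNReal
open Pool.Agent.H812R3.KP Pool.Agent.H596Z.Roe

theorem entry_eq {X : Type} (T : B X) (x y : X) : entry T x y = ent T x y := by
  classical
  rw [ent_eq_inner]
  unfold entry dl
  congr

theorem mem_Roe {X : Type} [MetricSpace X] (T : B X) : T ∈ Roe X ↔ T ∈ UR X := by
  rw [mem_UR]
  unfold Roe FP
  simp only [entry_eq]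

theorem good_univ {Y : Type} [MetricSpace Y] {p : B Y} (h1 : p ∈ Roe Y) (h2 : IsStarProjection p)
    (h3 : IsGhost p) (h4 : ¬ IsCompactOperator p) : Good (Set.univ : Set Y) := by
  refine ⟨p, ⟨h2, (mem_Roe p).1 h1, h4⟩, fun ε hε => ?_, by simp⟩
  obtain ⟨F, hF, hF'⟩ := h3 (ε ^ 2) (by positivity)
  refine hF.subset fun y hy => ?_
  by_contra hc
  have h5 := hF' y y (fun h => hc h.1)
  rw [entry_eq, proj_diag h2, Complex.norm_real, Real.norm_eq_abs, abs_of_nonneg (by positivity)]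
    at h5
  have h6 : ε ≤ ‖p (dl y)‖ := hy
  nlinarith

theorem transfer {Y X : Type} [MetricSpace Y] [MetricSpace X] {W : Set Y} (hW : Good W)
    (g : X → Y) (hg : Function.Injective g) (hr : W ⊆ Set.range g)
    (hd : ∀ r : ℝ, ∃ s : ℝ, ∀ x x', dist (g x) (g x') ≤ r → dist x x' ≤ s) :
    ∃ p ∈ Roe X, IsStarProjection p ∧ IsGhost p ∧ ¬ IsCompactOperator p := by
  classical
  obtain ⟨q, hq, hdec, hs⟩ := hW
  have hqq := hq.proj.isIdempotentElem.eq
  have hqs := hq.proj.isSelfAdjoint.star_eq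
  let E : B Y := (push g hg).comp (pull g hg)
  have hE : ∀ y, E (dl y) = if y ∈ Set.range g then dl y else 0 := by
    intro y
    split_ifs with hy
    · obtain ⟨x, rfl⟩ := hy
      have : pull g hg (dl (g x)) = dl x := by
        ext z
        rw [pull_apply, dl_apply, dl_apply]
        simp [hg.eq_iff]
      show push g hg (pull g hg (dl (g x))) = _
      rw [this, push_dl]
    · have : pull g hg (dl y) = 0 := by
        ext z
        rw [pull_apply, dl_apply, if_neg (fun h => hy ⟨z, h⟩)]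
        rfl
      show push g hg (pull g hg (dl y)) = _
      rw [this, map_zero]
  have hEc : E = cut (Set.range g) := by
    apply ent_ext
    intro x y
    rw [ent, ent, hE, cut_dl]
  have hqE : q * E = q := by
    apply ent_ext
    intro x y
    rw [ent, ent, mul_apply_eq_comp, hE]
    split_ifs with hy
    · rfl
    · rw [hs y (fun h => hy (hr h)), map_zero]
  have hEq : E * q = q := by
    have := congrArg star hqE
    rwa [star_mul, hqs, hEc, star_cut, ← hEc] at this
  refine ⟨cmp g hg q, ?_, ⟨?_, ?_⟩, ?_, ?_⟩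
  · rw [mem_Roe, mem_UR]
    refine map_mem_closure (cmp g hg).continuous ((mem_UR Y).1 hq.mem) ?_
    rintro T ⟨r, hT⟩
    obtain ⟨s, hs⟩ := hd r
    refine ⟨s, fun x x' h => ?_⟩
    rw [ent_cmp]
    apply hT
    by_contra hc
    exact absurd (hs x x' (not_lt.1 hc)) (not_le.2 h)
  · show _ * _ = _
    ext ξ : 1
    have : cmp g hg q = (pull g hg).comp ((q * E * q).comp (push g hg)) := by
      rw [hqE, hqq]; rfl
    conv_rhs => rw [this]
    rfl
  · show star _ = _
    apply ent_ext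
    intro x y
    rw [ent_star, ent_cmp, ent_cmp, ← ent_star, hqs]
  · intro ε hε
    refine ⟨g ⁻¹' {y | ε ≤ ‖q (dl y)‖}, (hdec ε hε).preimage hg.injOn, fun x y h => ?_⟩
    rw [entry_eq, ent_cmp]
    have h1 : ∀ a b : Y, ‖ent q a b‖ ≤ ‖q (dl b)‖ := fun a b =>
      lp.norm_apply_le_norm (by norm_num) _ _
    rcases not_and_or.1 h with h | h
    · have h2 : ent q (g x) (g y) = (starRingEnd ℂ) (ent q (g y) (g x)) := by
        rw [← ent_star, hqs]
      rw [h2, Complex.norm_conj]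
      exact (h1 _ _).trans_lt (not_le.1 h)
    · exact (h1 _ _).trans_lt (not_le.1 h)
  · intro hc
    apply hq.ncpt
    have h1 := (hc.comp_clm (pull g hg)).clm_comp (push g hg)
    have e : ⇑q = ⇑(push g hg) ∘ ⇑(cmp g hg q) ∘ ⇑(pull g hg) := by
      have : q = E * q * E := by rw [hEq, hqE]
      conv_lhs => rw [this]
      rfl
    rw [e]
    exact h1

theorem exists_colour {Y X : Type} (f : Y → X) (N : ℕ)
    (h : ∀ y, (f ⁻¹' {f y}).encard ≤ (N : ℕ∞)) :
    ∃ c : Y → ℕ, (∀ y, c y ≤ N) ∧ ∀ y y', f y = f y' → c y = c y' → y = y' := by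
  classical
  have key : ∀ x : X, ∃ c : Y → ℕ, (∀ y, f y = x → c y ≤ N) ∧
      ∀ y y', f y = x → f y' = x → c y = c y' → y = y' := by
    intro x
    by_cases hx : ∃ y0, f y0 = x
    · obtain ⟨y0, rfl⟩ := hx
      have hfin : (f ⁻¹' {f y0}).Finite := Set.finite_of_encard_le_coe (h y0)
      have hcard : hfin.toFinset.card ≤ N := by
        have := h y0
        rw [hfin.encard_eq_coe_toFinset_card] at this
        exact_mod_cast this
      refine ⟨fun y => if hy : y ∈ hfin.toFinset then (hfin.toFinset.equivFin ⟨y, hy⟩ : ℕ) else 0,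
        fun y hy => ?_, fun y y' hy hy' e => ?_⟩
      · have hy1 : y ∈ hfin.toFinset := by simpa using hy
        simp only [dif_pos hy1]
        exact (Fin.is_lt _).le.trans hcard
      · have hy1 : y ∈ hfin.toFinset := by simpa using hy
        have hy2 : y' ∈ hfin.toFinset := by simpa using hy'
        simp only [dif_pos hy1, dif_pos hy2] at e
        exact congrArg Subtype.val (hfin.toFinset.equivFin.injective (Fin.ext e))
    · exact ⟨fun _ => 0, fun y hy => absurd ⟨y, hy⟩ hx, fun y _ hy => absurd ⟨y, hy⟩ hx⟩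
  choose c hc1 hc2 using key
  refine ⟨fun y => c (f y) y, fun y => hc1 _ y rfl, fun y y' e e' => hc2 (f y) y y' rfl e.symm ?_⟩
  have e'' : c (f y) y = c (f y') y' := e'
  rw [e'', e]

theorem sparse_image {Y X : Type} [MetricSpace Y] [MetricSpace X] {S W : Set Y} (hS : IsSparse S)
    (hW : W ⊆ S) (hinf : W.Infinite) (f : Y → X) (hf : Set.InjOn f W)
    (hd : ∀ R : ℝ, ∃ r : ℝ, ∀ y y', r ≤ dist y y' → R ≤ dist (f y) (f y')) :
    IsSparse (f '' W) := by
  classical
  obtain ⟨P, h1, h2, h3, h4⟩ := hS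
  have hI : {n | (P n ∩ W).Nonempty}.Infinite := by
    intro hfin
    apply hinf
    refine (hfin.biUnion (t := fun n => P n) (fun n _ => (h1 n).1)).subset fun y hy => ?_
    have := hW hy
    rw [h3, Set.mem_iUnion] at this
    obtain ⟨n, hn⟩ := this
    exact Set.mem_biUnion (x := n) ⟨y, hn, hy⟩ hn
  have hmono := Nat.nth_strictMono hI
  refine ⟨fun n => f '' (P (Nat.nth (fun n => (P n ∩ W).Nonempty) n) ∩ W), fun n => ⟨?_, ?_⟩,
    fun n m hnm => ?_, ?_, fun R => ?_⟩
  · exact ((h1 _).1.inter_of_left W).image f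
  · exact (Nat.nth_mem_of_infinite hI n).image f
  · rw [Set.disjoint_left]
    rintro _ ⟨y, hy, rfl⟩ ⟨y', hy', e⟩
    obtain rfl := hf hy'.2 hy.2 e
    exact Set.disjoint_left.1 (h2 _ _ (hmono.injective.ne hnm)) hy.1 hy'.1
  · ext x
    simp only [Set.mem_iUnion]
    constructor
    · rintro ⟨y, hy, rfl⟩
      have := hW hy
      rw [h3, Set.mem_iUnion] at this
      obtain ⟨n, hn⟩ := this
      refine ⟨Nat.count (fun n => (P n ∩ W).Nonempty) n, y, ⟨?_, hy⟩, rfl⟩
      rwa [Nat.nth_count (p := fun n => (P n ∩ W).Nonempty) ⟨y, hn, hy⟩]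
    · rintro ⟨n, y, hy, rfl⟩
      exact ⟨y, hy.2, rfl⟩
  · obtain ⟨r, hr⟩ := hd R
    obtain ⟨K, hK⟩ := h4 r
    refine ⟨K, fun n m hnm hk => ?_⟩
    rintro _ ⟨y, hy, rfl⟩ _ ⟨y', hy', rfl⟩
    have a1 := hmono.le_apply (x := n)
    have a2 := hmono.le_apply (x := m)
    exact hr _ _ (hK _ _ (hmono.injective.ne hnm) (by omega) y hy.1 y' hy'.1)

theorem main {X Y : Type} [MetricSpace X] [MetricSpace Y] (hY : ULF Y) (f : Y → X)
    (hf : IsCoarseEmbedding f) (hX : OnlyCompactGhosts X) : OnlyCompactGhosts Y := by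
  classical
  obtain ⟨ρ₁, ρ₂, m1, m2, ht, hρ⟩ := hf
  have hlow : ∀ R : ℝ, ∃ r : ℝ, ∀ y y', r ≤ dist y y' → R ≤ dist (f y) (f y') := by
    intro R
    obtain ⟨r, hr⟩ := Filter.eventually_atTop.1 (ht.eventually_ge_atTop R.toNNReal)
    refine ⟨r, fun y y' h => ?_⟩
    have h1 := (hr (nndist y y') (by exact_mod_cast h)).trans (hρ y y').1
    exact (Real.le_coe_toNNReal R).trans (by exact_mod_cast h1)
  have hup : ∀ r : ℝ, ∃ s : ℝ, ∀ y y', dist y y' ≤ r → dist (f y) (f y') ≤ s := by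
    intro r
    refine ⟨ρ₂ r.toNNReal, fun y y' h => ?_⟩
    have h0 : nndist y y' ≤ r.toNNReal := by
      rw [← NNReal.coe_le_coe]
      exact h.trans (Real.le_coe_toNNReal r)
    exact_mod_cast (hρ y y').2.trans (m2 h0)
  intro S hS p hp1 hp2 hp3
  by_contra hp4
  have hgood := good_univ hp1 hp2 hp3 hp4
  obtain ⟨r, hr⟩ := hlow 1
  obtain ⟨N, hN⟩ := hY (|r| + 1) (by positivity)
  obtain ⟨c, hc1, hc2⟩ := exists_colour f N (fun y => by
    refine le_trans (Set.encard_le_encard fun y' hy' => ?_) (hN y)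
    rw [Metric.mem_closedBall]
    by_contra hc
    have h1 := hr y' y (by linarith [le_abs_self r, not_le.1 hc])
    have h2 : f y' = f y := hy'
    rw [h2, dist_self] at h1
    linarith)
  obtain ⟨W, -, hW, hinj⟩ := good_inj (fun y : S => f y) N Set.univ (fun y => c y)
    (fun y _ => hc1 y) (fun y _ y' _ e e' => Subtype.ext (hc2 _ _ e e')) hgood
  have hsp : IsSparse (f '' (Subtype.val '' W)) := by
    refine sparse_image hS ?_ (hW.infinite.image Subtype.val_injective.injOn) f ?_ hlow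
    · rintro _ ⟨y, -, rfl⟩; exact y.2
    · rintro _ ⟨y, hy, rfl⟩ _ ⟨y', hy', rfl⟩ e
      rw [hinj hy hy' e]
  have hex : ∀ x : ↥(f '' (Subtype.val '' W)), ∃ y : S, y ∈ W ∧ f y = x := by
    rintro ⟨_, _, ⟨y, hy, rfl⟩, rfl⟩
    exact ⟨y, hy, rfl⟩
  choose g hg1 hg2 using hex
  obtain ⟨q, q1, q2, q3, q4⟩ := transfer hW g
    (fun a b e => Subtype.ext (by rw [← hg2, ← hg2, e]))
    (fun y hy => ⟨⟨f y, y, ⟨y, hy, rfl⟩, rfl⟩, hinj (hg1 _) hy (hg2 _)⟩)
    (fun r => by
      obtain ⟨s, hs⟩ := hup r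
      refine ⟨s, fun x x' h => ?_⟩
      have := hs (g x) (g x') h
      rwa [hg2, hg2] at this)
  exact q4 (hX _ hsp q q1 q2 q3)

end Pool.Agent.H494Z.Ghost
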